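import Pool.Agent.Helper87.MD.Goals

/-!
# Project MD, packet LAT: the lattice lemma
-/

set_option autoImplicit false

open Finset
open scoped Classical

namespace Pool.Agent.Helper53.MD

open Pool.Agent.Helper98.Lang

/-- signed distance to the nearest integer -/
noncomputable def R (θ : ℝ) (x : ℕ) : ℝ := (x : ℝ) * θ - round ((x : ℝ) * θ)

theorem nd_le (t : ℝ) (m : ℤ) : nd t ≤ |t - m| := round_le t m

theorem nd_neg (t : ℝ) : nd (-t) = nd t := by
  apply le_antisymm
  · have h1 := nd_le (-t) (-round t)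
    have h : |(-t) - ((-round t : ℤ) : ℝ)| = nd t := by
      unfold nd
      rw [← abs_neg]
      congr 1
      push_cast
      ring
    rwa [h] at h1
  · have h1 := nd_le t (-round (-t))
    have h : |t - ((-round (-t) : ℤ) : ℝ)| = nd (-t) := by
      unfold nd
      rw [← abs_neg]
      congr 1
      push_cast
      ring
    rwa [h] at h1

/-- an integer of absolute value less than one is zero -/
theorem int_zero (m : ℤ) (h : |(m : ℝ)| < 1) : m = 0 := by
  have h2 : |m| < 1 := by exact_mod_cast h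
  exact Int.abs_lt_one_iff.mp h2

theorem spaced (S : Finset ℕ) (X : ℕ) (D : ℝ) (hD : 0 < D) (hS : ∀ x ∈ S, x ≤ X)
    (hg : ∀ x ∈ S, ∀ y ∈ S, x < y → 1 ≤ D * ((y : ℝ) - x)) : (S.card : ℝ) ≤ 1 + D * X := by
  have h1 : S.card ≤ (range (⌊D * X⌋₊ + 1)).card := by
    apply Finset.card_le_card_of_injOn (fun x : ℕ => ⌊D * (x : ℝ)⌋₊)
    · intro x hx
      simp only [coe_range, Set.mem_Iio]
      have : (x : ℝ) ≤ X := by exact_mod_cast hS x hx
      have h2 : ⌊D * (x : ℝ)⌋₊ ≤ ⌊D * (X : ℝ)⌋₊ := Nat.floor_le_floor (by nlinarith)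
      omega
    · intro x hx y hy hxy
      simp only at hxy
      by_contra hne
      have key : ∀ a ∈ S, ∀ b ∈ S, a < b → ⌊D * (a : ℝ)⌋₊ = ⌊D * (b : ℝ)⌋₊ → False := by
        intro a ha b hb hab he
        have h3 := hg a ha b hb hab
        have h4 : (⌊D * (a : ℝ)⌋₊ : ℝ) ≤ D * a := Nat.floor_le (by positivity)
        have h5 : D * (b : ℝ) < ⌊D * (b : ℝ)⌋₊ + 1 := Nat.lt_floor_add_one _
        rw [← he] at h5
        linarith
      rcases lt_or_gt_of_ne hne with h | h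
      · exact key x hx y hy h hxy
      · exact key y hy x hx h hxy.symm
  rw [card_range] at h1
  have h2 : (S.card : ℝ) ≤ (⌊D * (X : ℝ)⌋₊ : ℝ) + 1 := by exact_mod_cast h1
  have h3 : (⌊D * (X : ℝ)⌋₊ : ℝ) ≤ D * X := Nat.floor_le (by positivity)
  linarith

theorem core (θ η ρ : ℝ) (X w : ℕ) (Pw : ℤ) (hη : 0 < η) (hη4 : η < 1 / 4) (hw : 1 ≤ w)
    (hPw : (w : ℝ) * θ - Pw = ρ) (hρ : 0 < ρ) (hρη : ρ ≤ 2 * η)
    (hnd : nd ((w : ℝ) * θ) = ρ)
    (hmin : ∀ u : ℕ, 1 ≤ u → u < w → 2 * η < nd ((u : ℝ) * θ)) :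
    (((Icc 1 X).filter (fun x : ℕ => nd ((x : ℝ) * θ) ≤ η)).card : ℝ)
      ≤ 2 + 8 * (η * X) + 2 * Real.sqrt (2 * η * X / (ρ * w)) := by
  set E := (Icc 1 X).filter (fun x : ℕ => nd ((x : ℝ) * θ) ≤ η) with hE
  have hw0 : (0 : ℝ) < w := by exact_mod_cast hw
  have hR : ∀ x ∈ E, |R θ x| ≤ η := by
    intro x hx
    exact (mem_filter.mp hx).2
  have hX : ∀ x ∈ E, 1 ≤ x ∧ x ≤ X := by
    intro x hx
    exact mem_Icc.mp (mem_filter.mp hx).1
  -- difference
  have hdiff : ∀ x y : ℕ, x ≤ y → nd (((y - x : ℕ) : ℝ) * θ) ≤ |R θ y - R θ x| := by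
    intro x y hxy
    have h := nd_le (((y - x : ℕ) : ℝ) * θ) (round ((y : ℝ) * θ) - round ((x : ℝ) * θ))
    have h2 : ((y - x : ℕ) : ℝ) * θ - ((round ((y : ℝ) * θ) - round ((x : ℝ) * θ) : ℤ) : ℝ)
        = R θ y - R θ x := by
      unfold R
      push_cast [Nat.cast_sub hxy]
      ring
    rwa [h2] at h
  set E1 := E.filter (fun x => x ≤ w) with hE1
  set E2 := E.filter (fun x => R θ x < -η + ρ) with hE2
  have c1 : E1.card ≤ 1 := by
    rw [Finset.card_le_one]
    have key : ∀ a ∈ E1, ∀ b ∈ E1, a < b → False := by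
      intro a ha b hb hab
      obtain ⟨ha1, ha2⟩ := mem_filter.mp ha
      obtain ⟨hb1, hb2⟩ := mem_filter.mp hb
      have h1 := hdiff a b hab.le
      have h2 := hmin (b - a) (by omega) (by have := (hX a ha1).1; omega)
      have h3 := hR a ha1
      have h4 := hR b hb1
      have h5 : |R θ b - R θ a| ≤ 2 * η := by
        have := abs_sub (R θ b) (R θ a)
        rw [abs_le] at h3 h4 ⊢
        constructor <;> linarith [h3.1, h3.2, h4.1, h4.2]
      linarith
    intro a ha b hb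
    by_contra hne
    rcases lt_or_gt_of_ne hne with h | h
    · exact key a ha b hb h
    · exact key b hb a ha h
  have c2 : (E2.card : ℝ) ≤ 1 + 2 * ρ * X := by
    apply spaced E2 X (2 * ρ) (by linarith)
    · intro x hx
      exact (hX x (mem_filter.mp hx).1).2
    · intro x hx y hy hxy
      obtain ⟨hx1, hx2⟩ := mem_filter.mp hx
      obtain ⟨hy1, hy2⟩ := mem_filter.mp hy
      have h3 := abs_le.mp (hR x hx1)
      have h4 := abs_le.mp (hR y hy1)
      have hτ : |R θ y - R θ x| < ρ := by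
        rw [abs_lt]
        constructor <;> linarith [h3.1, h3.2, h4.1, h4.2]
      have h1 := hdiff x y hxy.le
      have hwu : w ≤ y - x := by
        by_contra hc
        have := hmin (y - x) (by omega) (by omega)
        linarith
      have hwu2 : w < y - x := by
        rcases Nat.lt_or_ge w (y - x) with h | h
        · exact h
        · exfalso
          have he : y - x = w := le_antisymm h hwu
          rw [he, hnd] at h1
          linarith
      -- the integer
      set U : ℤ := round ((y : ℝ) * θ) - round ((x : ℝ) * θ) with hU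
      set N : ℤ := ((y : ℤ) - x) * Pw - w * U with hN
      have hNr : (N : ℝ) = w * (R θ y - R θ x) - ((y : ℝ) - x) * ρ := by
        rw [hN, hU]
        unfold R
        rw [← hPw]
        push_cast
        ring
      have hyx : (w : ℝ) < (y : ℝ) - x := by
        have : (w : ℝ) < ((y - x : ℕ) : ℝ) := by exact_mod_cast hwu2
        rwa [Nat.cast_sub hxy.le] at this
      have hτ' := abs_lt.mp hτ
      have hneg : (N : ℝ) < 0 := by
        rw [hNr]
        nlinarith [hτ'.1, hτ'.2]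
      have hN1 : N ≤ -1 := by
        have : N < 0 := by exact_mod_cast hneg
        omega
      have hN2 : (N : ℝ) ≤ -1 := by exact_mod_cast hN1
      rw [hNr] at hN2
      nlinarith [hτ'.1, hτ'.2]
  -- chains
  have cov : ∀ x : ℕ, x ∈ E → ∃ s ∈ E1 ∪ E2, ∃ j : ℕ, x = s + j * w ∧ R θ x = R θ s + j * ρ := by
    intro x
    induction x using Nat.strong_induction_on with
    | _ x ih =>
      intro hx
      by_cases h1 : x ≤ w
      · exact ⟨x, mem_union_left _ (mem_filter.mpr ⟨hx, h1⟩), 0, by simp, by simp⟩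
      by_cases h2 : R θ x < -η + ρ
      · exact ⟨x, mem_union_right _ (mem_filter.mpr ⟨hx, h2⟩), 0, by simp, by simp⟩
      push Not at h1 h2
      have hxR := abs_le.mp (hR x hx)
      have hcast : ((x - w : ℕ) : ℝ) = (x : ℝ) - w := by
        rw [Nat.cast_sub h1.le]
      have hndx : nd (((x - w : ℕ) : ℝ) * θ) ≤ η := by
        have h := nd_le (((x - w : ℕ) : ℝ) * θ) (round ((x : ℝ) * θ) - Pw)
        have h3 : ((x - w : ℕ) : ℝ) * θ - ((round ((x : ℝ) * θ) - Pw : ℤ) : ℝ) = R θ x - ρ := by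
          unfold R
          rw [hcast, ← hPw]
          push_cast
          ring
        rw [h3] at h
        refine h.trans ?_
        rw [abs_le]
        constructor <;> linarith [hxR.1, hxR.2]
      have hmem : x - w ∈ E := by
        rw [hE, mem_filter, mem_Icc]
        have := hX x hx
        exact ⟨⟨by omega, by omega⟩, hndx⟩
      obtain ⟨s, hs, j, hj1, hj2⟩ := ih (x - w) (by omega) hmem
      refine ⟨s, hs, j + 1, ?_, ?_⟩
      · have : x = (x - w) + w := by omega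
        rw [this, hj1]
        ring
      · -- R x = R (x - w) + ρ
        have hint : R θ x - R θ (x - w) - ρ
            = ((round (((x - w : ℕ) : ℝ) * θ) - round ((x : ℝ) * θ) + Pw : ℤ) : ℝ) := by
          unfold R
          rw [hcast, ← hPw]
          push_cast
          ring
        have hyR := abs_le.mp (hR (x - w) hmem)
        have hlt : |((round (((x - w : ℕ) : ℝ) * θ) - round ((x : ℝ) * θ) + Pw : ℤ) : ℝ)| < 1 := by
          rw [← hint, abs_lt]
          constructor <;> linarith [hxR.1, hxR.2, hyR.1, hyR.2]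
        have h0 := int_zero _ hlt
        rw [h0] at hint
        push_cast at hint ⊢
        linarith
  set m : ℝ := min (2 * η / ρ) ((X : ℝ) / w) with hm
  have hm0 : 0 ≤ m := by
    rw [hm]
    apply le_min <;> positivity
  have hcard : E.card ≤ (E1 ∪ E2).card * (⌊m⌋₊ + 1) := by
    have hsub : E ⊆ ((E1 ∪ E2) ×ˢ range (⌊m⌋₊ + 1)).image (fun p : ℕ × ℕ => p.1 + p.2 * w) := by
      intro x hx
      obtain ⟨s, hs, j, hj1, hj2⟩ := cov x hx
      have hsE : s ∈ E := by
        rcases mem_union.mp hs with h | h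
        · exact (mem_filter.mp h).1
        · exact (mem_filter.mp h).1
      have hj3 : (j : ℝ) ≤ m := by
        rw [hm]
        apply le_min
        · rw [le_div_iff₀ hρ]
          have h1 := abs_le.mp (hR x hx)
          have h2 := abs_le.mp (hR s hsE)
          linarith [h1.2, h2.1]
        · rw [le_div_iff₀ hw0]
          have h1 := (hX x hx).2
          have h2 : j * w ≤ X := by omega
          exact_mod_cast h2
      rw [mem_image]
      refine ⟨(s, j), ?_, hj1.symm⟩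
      rw [mem_product, mem_range]
      refine ⟨hs, ?_⟩
      have := Nat.le_floor hj3
      show j < ⌊m⌋₊ + 1
      omega
    calc E.card ≤ _ := card_le_card hsub
      _ ≤ ((E1 ∪ E2) ×ˢ range (⌊m⌋₊ + 1)).card := card_image_le
      _ = _ := by rw [card_product, card_range]
  have hun : ((E1 ∪ E2).card : ℝ) ≤ 2 + 2 * ρ * X := by
    have h1 : (E1 ∪ E2).card ≤ E1.card + E2.card := card_union_le _ _
    have h2 : ((E1 ∪ E2).card : ℝ) ≤ (E1.card : ℝ) + E2.card := by exact_mod_cast h1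
    have h3 : (E1.card : ℝ) ≤ 1 := by exact_mod_cast c1
    linarith
  have hfl : ((⌊m⌋₊ : ℝ) + 1) ≤ m + 1 := by
    have := Nat.floor_le hm0
    linarith
  have hcr : (E.card : ℝ) ≤ (2 + 2 * ρ * X) * (m + 1) := by
    calc (E.card : ℝ) ≤ ((E1 ∪ E2).card : ℝ) * ((⌊m⌋₊ : ℝ) + 1) := by exact_mod_cast hcard
      _ ≤ (2 + 2 * ρ * X) * (m + 1) := by
        apply mul_le_mul hun hfl (by positivity) (by positivity)
  have hm1 : ρ * m ≤ 2 * η := by
    have : m ≤ 2 * η / ρ := min_le_left _ _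
    rw [le_div_iff₀ hρ] at this
    linarith
  have hm2 : m ≤ Real.sqrt (2 * η * X / (ρ * w)) := by
    apply Real.le_sqrt_of_sq_le
    have h1 : m ≤ 2 * η / ρ := min_le_left _ _
    have h2 : m ≤ (X : ℝ) / w := min_le_right _ _
    calc m ^ 2 = m * m := by ring
      _ ≤ (2 * η / ρ) * ((X : ℝ) / w) := mul_le_mul h1 h2 hm0 (by positivity)
      _ = 2 * η * X / (ρ * w) := by field_simp
  have hX0 : (0 : ℝ) ≤ X := Nat.cast_nonneg _
  have h8 : ρ * X ≤ 2 * η * X := mul_le_mul_of_nonneg_right hρη hX0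
  have h9 : ρ * m * X ≤ 2 * η * X := mul_le_mul_of_nonneg_right hm1 hX0
  calc (E.card : ℝ) ≤ (2 + 2 * ρ * X) * (m + 1) := hcr
    _ = 2 + 2 * (ρ * X) + 2 * (ρ * m * X) + 2 * m := by ring
    _ ≤ 2 + 8 * (η * X) + 2 * Real.sqrt (2 * η * X / (ρ * w)) := by linarith

/-- the case `η < 1/4`, without the sign condition -/
theorem core2 (θ η ρ : ℝ) (X w : ℕ) (hη : 0 < η) (hη4 : η < 1 / 4) (hw : 1 ≤ w)
    (hρ : 0 < ρ) (hρη : ρ ≤ 2 * η) (hnd : nd ((w : ℝ) * θ) = ρ)
    (hmin : ∀ u : ℕ, 1 ≤ u → u < w → 2 * η < nd ((u : ℝ) * θ)) :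
    (((Icc 1 X).filter (fun x : ℕ => nd ((x : ℝ) * θ) ≤ η)).card : ℝ)
      ≤ 2 + 8 * (η * X) + 2 * Real.sqrt (2 * η * X / (ρ * w)) := by
  rcases le_or_gt 0 ((w : ℝ) * θ - round ((w : ℝ) * θ)) with h | h
  · apply core θ η ρ X w (round ((w : ℝ) * θ)) hη hη4 hw _ hρ hρη hnd hmin
    rw [← hnd]
    unfold nd
    rw [abs_of_nonneg h]
  · have hn : ∀ u : ℕ, nd ((u : ℝ) * -θ) = nd ((u : ℝ) * θ) := by
      intro u
      rw [mul_neg, nd_neg]
    have := core (-θ) η ρ X w (-round ((w : ℝ) * θ)) hη hη4 hw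
      (by rw [← hnd]; unfold nd; rw [abs_of_neg h]; push_cast; ring) hρ hρη
      (by rw [hn, hnd]) (by intro u h1 h2; rw [hn]; exact hmin u h1 h2)
    simpa only [hn] using this

theorem lat : Pool.Agent.Helper87.MD.LatStmt := by
  intro ξ hξ δ hδ
  obtain ⟨c₁, hc₁, hroth⟩ := hξ δ hδ
  refine ⟨8 + 6 * (1 / c₁) ^ ((1 : ℝ) / 2), by positivity, ?_⟩
  intro s X η hs hX hη
  set θ : ℝ := (s : ℝ) * ξ with hθ
  have hs0 : (0 : ℝ) < s := by exact_mod_cast hs
  have hX0 : (0 : ℝ) < X := by exact_mod_cast hX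
  have hX1 : (1 : ℝ) ≤ X := by exact_mod_cast hX
  set T : ℝ := η * ((s : ℝ) * X) ^ (1 + δ) with hT
  have hT0 : 0 < T := by positivity
  have hA : (0 : ℝ) ≤ η * X + T ^ ((1 : ℝ) / 2) := by positivity
  set K : ℝ := (1 / c₁) ^ ((1 : ℝ) / 2) with hK
  have hK0 : 0 ≤ K := by positivity
  set E := (Icc 1 X).filter (fun x : ℕ => nd ((x : ℝ) * θ) ≤ η) with hE
  rcases le_or_gt (1 / 4) η with h4 | h4
  · have h1 : E.card ≤ X := by
      calc E.card ≤ (Icc 1 X).card := card_filter_le _ _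
        _ = X := by simp
    have h2 : (E.card : ℝ) ≤ X := by exact_mod_cast h1
    have h3 : (0 : ℝ) ≤ T ^ ((1 : ℝ) / 2) := by positivity
    nlinarith
  rcases E.eq_empty_or_nonempty with he | hne
  · rw [he]
    simp only [card_empty, Nat.cast_zero]
    positivity
  obtain ⟨x0, hx0⟩ := hne
  obtain ⟨hx1, hx2⟩ := mem_filter.mp hx0
  rw [mem_Icc] at hx1
  -- Roth in the form we need
  have hr : ∀ n : ℕ, 1 ≤ n → c₁ ≤ nd ((n : ℝ) * θ) * ((s : ℝ) * n) ^ (1 + δ) := by
    intro n hn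
    have hn0 : (0 : ℝ) < n := by exact_mod_cast hn
    have h := hroth (n * s) (Nat.mul_pos hn hs)
    have e1 : ((n * s : ℕ) : ℝ) = (s : ℝ) * n := by push_cast; ring
    rw [e1] at h
    have e2 : (s : ℝ) * n * ξ = (n : ℝ) * θ := by rw [hθ]; ring
    rw [e2, Real.rpow_neg (by positivity)] at h
    have hp : (0 : ℝ) < ((s : ℝ) * n) ^ (1 + δ) := by positivity
    rw [← div_eq_mul_inv, div_le_iff₀ hp] at h
    exact h
  have hTc : c₁ ≤ T := by
    have h1 := hr x0 hx1.1
    have h2 : ((s : ℝ) * x0) ^ (1 + δ) ≤ ((s : ℝ) * X) ^ (1 + δ) := by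
      apply Real.rpow_le_rpow (by positivity) _ (by linarith)
      have : (x0 : ℝ) ≤ X := by exact_mod_cast hx1.2
      nlinarith
    calc c₁ ≤ nd ((x0 : ℝ) * θ) * ((s : ℝ) * x0) ^ (1 + δ) := h1
      _ ≤ η * ((s : ℝ) * X) ^ (1 + δ) := mul_le_mul hx2 h2 (by positivity) hη.le
  -- the minimal w
  have hex : ∃ w : ℕ, 1 ≤ w ∧ nd ((w : ℝ) * θ) ≤ 2 * η := ⟨x0, hx1.1, by linarith⟩
  set w := Nat.find hex with hwdef
  obtain ⟨hw1, hw2⟩ := Nat.find_spec hex
  have hwX : w ≤ X := (Nat.find_min' hex ⟨hx1.1, by linarith⟩).trans hx1.2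
  have hw0 : (0 : ℝ) < w := by exact_mod_cast hw1
  have hmin : ∀ u : ℕ, 1 ≤ u → u < w → 2 * η < nd ((u : ℝ) * θ) := by
    intro u h1 h2
    by_contra hc
    push Not at hc
    exact Nat.find_min hex h2 ⟨h1, hc⟩
  set ρ : ℝ := nd ((w : ℝ) * θ) with hρdef
  have hrw := hr w hw1
  have hρ : 0 < ρ := by
    by_contra hc
    push Not at hc
    have hp : (0 : ℝ) < ((s : ℝ) * w) ^ (1 + δ) := by positivity
    nlinarith
  have hmain := core2 θ η ρ X w hη h4 hw1 hρ hw2 rfl hmin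
  -- 2 η X / (ρ w) ≤ 4 T / c₁
  have hq : c₁ * X ≤ ρ * w * ((s : ℝ) * X) ^ (1 + δ) := by
    have h1 : ((s : ℝ) * w) ^ (1 + δ) * X ≤ ((s : ℝ) * X) ^ (1 + δ) * w := by
      have e : (s : ℝ) * X = ((s : ℝ) * w) * ((X : ℝ) / w) := by field_simp
      have hxw : (1 : ℝ) ≤ (X : ℝ) / w := by
        rw [one_le_div hw0]
        exact_mod_cast hwX
      have h2 : (X : ℝ) / w ≤ ((X : ℝ) / w) ^ (1 + δ) := by
        calc (X : ℝ) / w = ((X : ℝ) / w) ^ (1 : ℝ) := (Real.rpow_one _).symm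
          _ ≤ _ := Real.rpow_le_rpow_of_exponent_le hxw (by linarith)
      have hp : (0 : ℝ) < ((s : ℝ) * w) ^ (1 + δ) := by positivity
      calc ((s : ℝ) * w) ^ (1 + δ) * X = ((s : ℝ) * w) ^ (1 + δ) * ((X : ℝ) / w) * w := by
            field_simp
        _ ≤ ((s : ℝ) * w) ^ (1 + δ) * ((X : ℝ) / w) ^ (1 + δ) * w := by
            apply mul_le_mul_of_nonneg_right _ hw0.le
            exact mul_le_mul_of_nonneg_left h2 hp.le
        _ = ((s : ℝ) * X) ^ (1 + δ) * w := by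
            have e3 := Real.mul_rpow (x := (s : ℝ) * w) (y := (X : ℝ) / w) (z := 1 + δ)
              (by positivity) (by positivity)
            rw [← e] at e3
            rw [e3]
    calc c₁ * X ≤ ρ * ((s : ℝ) * w) ^ (1 + δ) * X := mul_le_mul_of_nonneg_right hrw hX0.le
      _ = ρ * (((s : ℝ) * w) ^ (1 + δ) * X) := by ring
      _ ≤ ρ * (((s : ℝ) * X) ^ (1 + δ) * w) := mul_le_mul_of_nonneg_left h1 hρ.le
      _ = _ := by ring
  have hq2 : 2 * η * X / (ρ * w) ≤ 4 * (T * (1 / c₁)) := by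
    rw [div_le_iff₀ (by positivity)]
    have h5 : η * (c₁ * X) ≤ η * (ρ * w * ((s : ℝ) * X) ^ (1 + δ)) :=
      mul_le_mul_of_nonneg_left hq hη.le
    have h6 : 4 * (T * (1 / c₁)) * (ρ * w)
        = 4 * (1 / c₁) * (η * (ρ * w * ((s : ℝ) * X) ^ (1 + δ))) := by
      rw [hT]; ring
    rw [h6]
    have h7 : 4 * (1 / c₁) * (η * (c₁ * X)) ≤ 4 * (1 / c₁) * (η * (ρ * w * ((s : ℝ) * X) ^ (1 + δ))) :=
      mul_le_mul_of_nonneg_left h5 (by positivity)
    have h8 : 4 * (1 / c₁) * (η * (c₁ * X)) = 4 * (η * X) := by field_simp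
    have h9 : 0 ≤ η * X := by positivity
    linarith
  have hsq : Real.sqrt (2 * η * X / (ρ * w)) ≤ 2 * (K * T ^ ((1 : ℝ) / 2)) := by
    calc Real.sqrt (2 * η * X / (ρ * w)) ≤ Real.sqrt (4 * (T * (1 / c₁))) := Real.sqrt_le_sqrt hq2
      _ = 2 * (K * T ^ ((1 : ℝ) / 2)) := by
        rw [Real.sqrt_mul (by norm_num), show (4 : ℝ) = 2 ^ 2 by norm_num,
          Real.sqrt_sq (by norm_num), Real.sqrt_mul hT0.le, Real.sqrt_eq_rpow, Real.sqrt_eq_rpow,
          hK]
        ring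
  have htwo : 1 ≤ K * T ^ ((1 : ℝ) / 2) := by
    rw [hK, ← Real.mul_rpow (by positivity) hT0.le]
    apply Real.one_le_rpow _ (by norm_num)
    rw [one_div, inv_mul_eq_div, one_le_div hc₁]
    exact hTc
  have hηX : 0 ≤ η * X := by positivity
  have hKη : 0 ≤ K * (η * X) := by positivity
  have hT2 : 0 ≤ T ^ ((1 : ℝ) / 2) := by positivity
  calc (E.card : ℝ) ≤ 2 + 8 * (η * X) + 2 * Real.sqrt (2 * η * X / (ρ * w)) := hmain
    _ ≤ (8 + 6 * K) * (η * X + T ^ ((1 : ℝ) / 2)) := by nlinarith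

end Pool.Agent.Helper53.MD
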